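import Pool.Agent.H73.CBD.Stmts

/-! Row ALH of the board `cbd`: homogeneity and sizes. -/

set_option autoImplicit false

open Set Filter Topology

namespace Pool.CBD

private lemma alh_div (t n d : ℝ) (ht : 0 < t) : t ^ 2 * n / (t ^ 4 * d) = (n / d) * (t ^ 2)⁻¹ := by
  by_cases hd : d = 0
  · simp [hd]
  · field_simp

private lemma alh_norm (t : ℝ) (z : V) (ht : 0 < t) (i : Fin 2) : ‖(t • z) i‖ = t * ‖z i‖ := by
  rw [Pi.smul_apply, norm_smul, Real.norm_of_nonneg ht.le]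

theorem ALH_thm : ALHStmt := by
  refine ⟨?_, ?_, ?_, ?_, ?_⟩
  · intro c z
    ext i
    fin_cases i
    · simp [f]; ring
    · simp [f]; ring
  · intro c z
    simp only [N, Pi.smul_apply, smul_eq_mul, norm_mul, mul_pow]
    ring
  · intro z
    have h0 : ‖z 0‖ ≤ ‖z‖ := norm_le_pi_norm z 0
    have h1 : ‖z 1‖ ≤ ‖z‖ := norm_le_pi_norm z 1
    have hn0 := norm_nonneg (z 0)
    have hn1 := norm_nonneg (z 1)
    constructor
    · have hN : 0 ≤ N z := by unfold N; positivity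
      have hle : ‖z‖ ≤ Real.sqrt (N z) := by
        refine (pi_norm_le_iff_of_nonneg (Real.sqrt_nonneg _)).2 fun i => ?_
        refine Real.le_sqrt_of_sq_le ?_
        fin_cases i
        · simp only [N, Fin.zero_eta]
          nlinarith [sq_nonneg ‖z 1‖]
        · simp only [N, Fin.mk_one]
          nlinarith [sq_nonneg ‖z 0‖]
      calc ‖z‖ ^ 2 ≤ Real.sqrt (N z) ^ 2 := pow_le_pow_left₀ (norm_nonneg z) hle 2
        _ = N z := Real.sq_sqrt hN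
    · have g0 : ‖z 0‖ ^ 2 ≤ ‖z‖ ^ 2 := pow_le_pow_left₀ hn0 h0 2
      have g1 : ‖z 1‖ ^ 2 ≤ ‖z‖ ^ 2 := pow_le_pow_left₀ hn1 h1 2
      unfold N
      linarith
  · intro z v
    have h0 : ‖z 0‖ ≤ ‖z‖ := norm_le_pi_norm z 0
    have h1 : ‖z 1‖ ≤ ‖z‖ := norm_le_pi_norm z 1
    have k0 : ‖v 0‖ ≤ ‖v‖ := norm_le_pi_norm v 0
    have k1 : ‖v 1‖ ≤ ‖v‖ := norm_le_pi_norm v 1
    have g0 : ‖z 0 * v 1‖ ≤ ‖z‖ * ‖v‖ := by
      rw [norm_mul]
      exact mul_le_mul h0 k1 (norm_nonneg _) (norm_nonneg _)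
    have g1 : ‖z 1 * v 0‖ ≤ ‖z‖ * ‖v‖ := by
      rw [norm_mul]
      exact mul_le_mul h1 k0 (norm_nonneg _) (norm_nonneg _)
    calc ‖P z v‖ ≤ ‖z 0 * v 1‖ + ‖z 1 * v 0‖ := norm_sub_le _ _
      _ ≤ 2 * ‖z‖ * ‖v‖ := by linarith
  · intro t z ht
    have htc : (t : ℂ) ≠ 0 := by exact_mod_cast ht.ne'
    have e0 : (t • z) 0 = (t : ℂ) * z 0 := by
      rw [Pi.smul_apply, Complex.real_smul]
    have e1 : (t • z) 1 = (t : ℂ) * z 1 := by
      rw [Pi.smul_apply, Complex.real_smul]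
    have n0 := alh_norm t z ht 0
    have n1 := alh_norm t z ht 1
    have hN : N (t • z) = t ^ 2 * N z := by
      unfold N
      rw [n0, n1]
      ring
    have hD : ‖(t • z) 0‖ ^ 4 + ‖(t • z) 1‖ ^ 4 = t ^ 4 * (‖z 0‖ ^ 4 + ‖z 1‖ ^ 4) := by
      rw [n0, n1]
      ring
    have hE : ‖(t • z) 0‖ ^ 2 - ‖(t • z) 1‖ ^ 2 = t ^ 2 * (‖z 0‖ ^ 2 - ‖z 1‖ ^ 2) := by
      rw [n0, n1]
      ring
    constructor
    · unfold tau
      rw [hN, hD, alh_div t _ _ ht, e0, e1]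
      push_cast
      field_simp
    · unfold nu
      rw [hE, hD, alh_div t _ _ ht, e0, e1, map_mul, map_mul, Complex.conj_ofReal]
      push_cast
      field_simp

end Pool.CBD
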